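import Mathlib
import Pool.Agent.MP_21ba69_lc.Main

/-!
Q1 of MP_21ba69_lc fails: an instance with eleven jobs that has maximal schedules and in which
every maximal schedule (indeed every optimal schedule) has an A-configuration.
-/

set_option autoImplicit false

open Pool.Agent.MP_21ba69_lc

theorem Pool.Agent.Results.MP_21ba69_lc.NoAFree.result :
    ∃ (n : ℕ) (r : Fin n → ℕ) (prec : Fin n → Fin n → Prop), IsStrictOrder (Fin n) prec ∧
      (∃ P : Schedule r prec, P.IsMaximal) ∧
      ∀ P : Schedule r prec, P.IsMaximal ∨ P.IsOptimal → P.HasAConfig :=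
  ⟨11, r0, prec0, prec0_strict, P0.exists_maximal P0_optimal, fun P h =>
    optimal_aconfig P (h.elim (fun h' => P.optimal_of_maximal h' P0_optimal) id)⟩
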